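import Pool.Agent.H242.GX.Stm4

/-!
# GX4-DESC (project GX of helper242)

Adapted from `H388/GX/DESC3` (helper388) and `H117/GX/DESC2` (helper117): uniform radius and strict
monotonicity.
-/

open Set Filter Topology
open scoped ContDiff

namespace Pool.Agent.H307.GX

open Pool.Agent.H242.GX

theorem K_zero {H K : ℝ × ℝ → ℝ} (hK : ContDiff ℝ ∞ K) (hHK : ∀ θ t : ℝ, H (θ, t) = t * K (θ, t))
    (φ : ℝ) : deriv (fun y => H (φ, y)) 0 = K (φ, 0) := by
  have h1 : ContDiff ℝ ∞ (fun y : ℝ => K (φ, y)) :=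
    hK.comp (contDiff_const.prodMk contDiff_id)
  have h2 : HasDerivAt (fun y : ℝ => K (φ, y)) (deriv (fun y : ℝ => K (φ, y)) 0) 0 :=
    ((h1.differentiable (by simp)) 0).hasDerivAt
  have h3 := (hasDerivAt_id (0 : ℝ)).mul h2
  have h4 : (fun y => H (φ, y)) = fun y => id y * K (φ, y) := by
    funext y; simp [hHK]
  rw [h4]
  have h5 : HasDerivAt (fun y : ℝ => id y * K (φ, y)) (K (φ, 0)) 0 := by
    have h6 : (1 : ℝ) * K (φ, 0) + id 0 * deriv (fun y : ℝ => K (φ, y)) 0 = K (φ, 0) := by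
      simp
    rw [← h6]
    exact h3
  exact h5.deriv

theorem gx_DESC4 (hPSI : S_PSI) (hDESC : S_DESC) (hBODY : S_BODY) (hHAD : S_HAD) : S_DESC4 := by
  intro p X Z hW H hH hper hH0 hHd
  have hsupp := hW.supp
  obtain ⟨y₁, hy₁, hinj, -, hext, hne⟩ := hPSI p hsupp
  obtain ⟨V, Y, hVo, hYs, hVY, hVsur⟩ := hDESC p y₁ H hsupp hy₁ hinj hne hH hper
  obtain ⟨V₂, Y₂, hV₂o, hY₂s, hVY₂, -⟩ :=
    hDESC p y₁ (fun x => x.2) hsupp hy₁ hinj hne contDiff_snd (fun φ y => rfl)
  obtain ⟨K, hK, hHK⟩ := hHAD H hH hH0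
  obtain ⟨htab, -, hfr, -⟩ := hBODY p hsupp
  have hK0 : ∀ φ, 0 < K (φ, 0) := fun φ => by
    have := hHd φ
    rwa [K_zero hK hHK φ] at this
  have hKper : ∀ φ y : ℝ, K (φ + 2 * Real.pi, y) = K (φ, y) := by
    intro φ y
    by_cases hy : y = 0
    · subst hy
      rw [← K_zero hK hHK φ, ← K_zero hK hHK (φ + 2 * Real.pi)]
      congr 1
      funext y
      exact hper φ y
    · have h1 := hper φ y
      rw [hHK, hHK] at h1
      exact mul_left_cancel₀ hy h1
  -- the positivity of `K` near the axis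
  obtain ⟨y₂, hy₂, hKpos⟩ : ∃ y₂ : ℝ, 0 < y₂ ∧ ∀ φ y : ℝ, |y| < y₂ → 0 < K (φ, y) := by
    have hopen : IsOpen {x : ℝ × ℝ | 0 < K x} := isOpen_lt continuous_const hK.continuous
    have hsub : (Icc (0 : ℝ) (2 * Real.pi)) ×ˢ ({0} : Set ℝ) ⊆ {x : ℝ × ℝ | 0 < K x} := by
      rintro ⟨a, b⟩ ⟨-, hb⟩
      have hb' : b = 0 := hb
      subst hb'
      exact hK0 a
    obtain ⟨u, v, -, hv, hu', hv', huv⟩ :=
      generalized_tube_lemma isCompact_Icc isCompact_singleton hopen hsub
    have h0v : (0 : ℝ) ∈ v := hv' (mem_singleton 0)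
    obtain ⟨r, hr, hball⟩ := Metric.isOpen_iff.1 hv 0 h0v
    refine ⟨r, hr, fun φ y hy => ?_⟩
    have hp : Function.Periodic (fun a => K (a, y)) (2 * Real.pi) := fun a => hKper a y
    obtain ⟨a, ha, hae⟩ := hp.exists_mem_Ico₀ Real.two_pi_pos φ
    have h1 : (a, y) ∈ {x : ℝ × ℝ | 0 < K x} := by
      apply huv
      refine ⟨hu' ⟨ha.1, ha.2.le⟩, hball ?_⟩
      simpa [Metric.mem_ball, Real.dist_eq] using hy
    have h2 : K (φ, y) = K (a, y) := hae
    rw [h2]
    exact h1
  have hψ0 : ∀ φ, Psi p φ 0 = gam p φ := fun φ => by simp [Psi]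
  have hY₂c : ContinuousOn Y₂ V₂ := hY₂s.continuousOn
  have hV' : IsOpen (V ∩ (V₂ ∩ Y₂ ⁻¹' Iio y₂)) :=
    hVo.inter (hY₂c.isOpen_inter_preimage hV₂o isOpen_Iio)
  -- the values on the tangent lines
  have hline : ∀ θ t : ℝ, gam p θ + t • e θ ∈ V ∧
      Y (gam p θ + t • e θ) = H ((X (θ, t)).1, (X (θ, t)).2 ^ 2) := by
    intro θ t
    have h1 := hW.rel θ t
    have h2 : -y₁ < (X (θ, t)).2 ^ 2 := by nlinarith [sq_nonneg (X (θ, t)).2]
    have h3 := hVY (X (θ, t)).1 ((X (θ, t)).2 ^ 2) h2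
    rw [h1] at h3
    exact h3
  refine ⟨V ∩ (V₂ ∩ Y₂ ⁻¹' Iio y₂), Y, hV', ?_, hYs.mono inter_subset_left, ?_, ?_, ?_, ?_⟩
  · rw [hfr]
    rintro z ⟨φ, rfl⟩
    have h1 := hVY φ 0 (by linarith)
    have h2 := hVY₂ φ 0 (by linarith)
    rw [hψ0] at h1 h2
    refine ⟨h1.1, h2.1, ?_⟩
    simp only [mem_preimage, mem_Iio]
    rw [h2.2]
    exact hy₂
  · rw [hfr]
    rintro z ⟨φ, rfl⟩
    have h1 := hVY φ 0 (by linarith)
    rw [hψ0] at h1
    rw [h1.2, hH0]
  · rintro z ⟨hzV, hzV₂, hzY⟩ hzK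
    obtain ⟨φ, y, hy, hz⟩ := hVsur z hzV
    have hzi : z ∉ interior (body p) := fun h => hzK (interior_subset h)
    obtain ⟨φ', y', hy', hz'⟩ := hext z hzi
    have hyy : y = y' := (hinj φ φ' y y' hy (by linarith) (hz.trans hz'.symm)).1
    have hy0 : y ≠ 0 := by
      intro h0
      apply hzK
      rw [h0, hψ0] at hz
      have h1 : z ∈ frontier (body p) := by rw [hfr]; exact ⟨φ, hz⟩
      exact htab.1.isClosed.frontier_subset h1
    have hypos : 0 < y := lt_of_le_of_ne (hyy ▸ hy') (Ne.symm hy0)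
    have h2 := hVY₂ φ y hy
    rw [hz] at h2
    have hylt : y < y₂ := by
      have : Y₂ z < y₂ := hzY
      rw [h2.2] at this
      exact this
    have h3 := hVY φ y hy
    rw [hz] at h3
    rw [h3.2, hHK]
    exact mul_pos hypos (hKpos φ y (by rw [abs_of_pos hypos]; exact hylt))
  · intro θ
    have hmem : gam p θ ∈ V := by
      have h1 := hVY θ 0 (by linarith)
      rw [hψ0] at h1
      exact h1.1
    -- derivatives of `Y` at points of `V`
    have hYd : ∀ z ∈ V, HasFDerivAt Y (fderiv ℝ Y z) z := by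
      intro z hz
      have h1 : ContDiffAt ℝ ∞ Y z := hYs.contDiffAt (hVo.mem_nhds hz)
      exact (h1.differentiableAt (by simp)).hasFDerivAt
    have hlined : ∀ t : ℝ, HasDerivAt (fun s : ℝ => gam p θ + s • e θ) (e θ) t := by
      intro t
      have h1 : HasDerivAt (fun s : ℝ => s • e θ) ((1 : ℝ) • e θ) t :=
        (hasDerivAt_id t).smul_const (e θ)
      rw [one_smul] at h1
      exact h1.const_add _
    set F : ℝ → ℝ := fun t => Y (gam p θ + t • e θ) with hF
    have hFd : ∀ t : ℝ, HasDerivAt F (fderiv ℝ Y (gam p θ + t • e θ) (e θ)) t := by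
      intro t
      exact (hYd _ (hline θ t).1).comp_hasDerivAt t (hlined t)
    -- the formula in normal coordinates
    set G : ℝ → ℝ := fun t => (X (θ, t)).2 with hG
    set k : ℝ → ℝ := fun t => K ((X (θ, t)).1, (X (θ, t)).2 ^ 2) with hk
    have hXs : ContDiff ℝ ∞ (fun t : ℝ => X (θ, t)) :=
      hW.smX.comp (contDiff_const.prodMk contDiff_id)
    have hGs : ContDiff ℝ ∞ G := contDiff_snd.comp hXs
    have hks : ContDiff ℝ ∞ k :=
      hK.comp ((contDiff_fst.comp hXs).prodMk (hGs.pow 2))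
    have hFG : F = fun t => G t ^ 2 * k t := by
      funext t
      rw [hF]
      simp only
      rw [(hline θ t).2, hHK]
    have hG0 : G 0 = 0 := by simp [hG, hW.axis]
    have hk0 : k 0 = K (θ, 0) := by simp [hk, hW.axis]
    have hGd : ∀ t, HasDerivAt G (deriv G t) t := fun t =>
      ((hGs.differentiable (by simp)) t).hasDerivAt
    have hkd : ∀ t, HasDerivAt k (deriv k t) t := fun t =>
      ((hks.differentiable (by simp)) t).hasDerivAt
    have hFd2 : ∀ t, HasDerivAt F (2 * G t * deriv G t * k t + G t ^ 2 * deriv k t) t := by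
      intro t
      rw [hFG]
      have h1 := ((hGd t).pow 2).mul (hkd t)
      have h2 : (((2 : ℕ) : ℝ) * G t ^ (2 - 1) * deriv G t) * k t + G t ^ 2 * deriv k t
          = 2 * G t * deriv G t * k t + G t ^ 2 * deriv k t := by
        norm_num
      rw [← h2]
      exact h1
    have hFeq : ∀ t, fderiv ℝ Y (gam p θ + t • e θ) (e θ)
        = 2 * G t * deriv G t * k t + G t ^ 2 * deriv k t := fun t =>
      (hFd t).unique (hFd2 t)
    have hb : 0 < deriv G 0 := hW.der2 θ
    refine ⟨?_, ?_, ?_⟩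
    · have h1 := hFeq 0
      rw [zero_smul, add_zero, hG0] at h1
      rw [h1]
      ring
    · -- the normal derivative
      have h1 : HasDerivAt (fun y : ℝ => Psi p θ y) (nu θ) 0 := by
        have h2 : HasDerivAt (fun s : ℝ => s • nu θ) ((1 : ℝ) • nu θ) 0 :=
          (hasDerivAt_id (0 : ℝ)).smul_const (nu θ)
        rw [one_smul] at h2
        exact h2.const_add _
      have h3 : HasFDerivAt Y (fderiv ℝ Y (gam p θ)) (Psi p θ 0) := by
        rw [hψ0]
        exact hYd _ hmem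
      have h4 : HasDerivAt (fun y : ℝ => Y (Psi p θ y)) (fderiv ℝ Y (gam p θ) (nu θ)) 0 :=
        h3.comp_hasDerivAt 0 h1
      have h5 : (fun y : ℝ => Y (Psi p θ y)) =ᶠ[𝓝 0] fun y => H (θ, y) := by
        have h6 : Ioi (-y₁) ∈ 𝓝 (0 : ℝ) := Ioi_mem_nhds (by linarith)
        filter_upwards [h6] with y hy
        exact (hVY θ y hy).2
      have h7 : deriv (fun y => H (θ, y)) 0 = fderiv ℝ Y (gam p θ) (nu θ) := by
        rw [← h5.deriv_eq]
        exact h4.deriv
      exact h7.symm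
    · -- the second derivative
      have hY2 : HasFDerivAt (fderiv ℝ Y) (fderiv ℝ (fderiv ℝ Y) (gam p θ)) (gam p θ) := by
        have h1 : ContDiffOn ℝ ∞ (fderiv ℝ Y) V := hYs.fderiv_of_isOpen hVo (by simp)
        have h2 : ContDiffAt ℝ ∞ (fderiv ℝ Y) (gam p θ) := h1.contDiffAt (hVo.mem_nhds hmem)
        exact (h2.differentiableAt (by simp)).hasFDerivAt
      have hY2' : HasFDerivAt (fderiv ℝ Y) (fderiv ℝ (fderiv ℝ Y) (gam p θ))
          (gam p θ + (0 : ℝ) • e θ) := by
        rw [zero_smul, add_zero]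
        exact hY2
      have h3 : HasDerivAt (fun t : ℝ => fderiv ℝ Y (gam p θ + t • e θ))
          (fderiv ℝ (fderiv ℝ Y) (gam p θ) (e θ)) 0 :=
        hY2'.comp_hasDerivAt 0 (hlined 0)
      have h4 : HasDerivAt (fun t : ℝ => fderiv ℝ Y (gam p θ + t • e θ) (e θ))
          (fderiv ℝ (fderiv ℝ Y) (gam p θ) (e θ) (e θ)) 0 := by
        have h5 := h3.clm_apply (hasDerivAt_const (0 : ℝ) (e θ))
        simpa using h5
      have h6 : (fun t : ℝ => fderiv ℝ Y (gam p θ + t • e θ) (e θ))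
          = fun t => 2 * G t * deriv G t * k t + G t ^ 2 * deriv k t := funext hFeq
      rw [h6] at h4
      have hG1s : ContDiff ℝ ∞ (deriv G) := by
        have := hGs
        rw [contDiff_infty_iff_deriv] at this
        exact this.2
      have hk1s : ContDiff ℝ ∞ (deriv k) := by
        have := hks
        rw [contDiff_infty_iff_deriv] at this
        exact this.2
      have hG1d : HasDerivAt (deriv G) (deriv (deriv G) 0) 0 :=
        ((hG1s.differentiable (by simp)) 0).hasDerivAt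
      have hk1d : HasDerivAt (deriv k) (deriv (deriv k) 0) 0 :=
        ((hk1s.differentiable (by simp)) 0).hasDerivAt
      have h7 : HasDerivAt (fun t => 2 * G t * deriv G t * k t + G t ^ 2 * deriv k t)
          (2 * (deriv G 0) ^ 2 * k 0) 0 := by
        have h8 := ((((hGd 0).const_mul 2).mul hG1d).mul (hkd 0)).add
          (((hGd 0).pow 2).mul hk1d)
        have h10 : ((2 * deriv G 0) * deriv G 0 + (2 * G 0) * deriv (deriv G) 0) * k 0
            + (2 * G 0 * deriv G 0) * deriv k 0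
            + ((((2 : ℕ) : ℝ) * G 0 ^ (2 - 1) * deriv G 0) * deriv k 0
              + G 0 ^ 2 * deriv (deriv k) 0) = 2 * (deriv G 0) ^ 2 * k 0 := by
          rw [hG0]
          ring
        rw [← h10]
        exact h8
      have h9 := h4.unique h7
      rw [h9, hk0]
      have := hK0 θ
      positivity
  · -- the uniform radius
    obtain ⟨r₁, hr₁, hXr⟩ := hHAD (fun x => (X x).2) (contDiff_snd.comp hW.smX)
      (fun φ => by simp [hW.axis])
    have hr10 : ∀ θ, 0 < r₁ (θ, 0) := fun θ => by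
      have h1 := hW.der2 θ
      have h2 := K_zero (H := fun x => (X x).2) hr₁ hXr θ
      rwa [h2] at h1
    obtain ⟨q, hq⟩ : ∃ q : ℝ × ℝ → ℝ, ∀ x, q x = r₁ x ^ 2 * K ((X x).1, (X x).2 ^ 2) :=
      ⟨_, fun _ => rfl⟩
    have hqs : ContDiff ℝ ∞ q := by
      have e1 : q = fun x => r₁ x ^ 2 * K ((X x).1, (X x).2 ^ 2) := funext hq
      rw [e1]
      exact (hr₁.pow 2).mul (hK.comp ((contDiff_fst.comp hW.smX).prodMk
        ((contDiff_snd.comp hW.smX).pow 2)))
    have hf : ∀ θ t : ℝ, H ((X (θ, t)).1, (X (θ, t)).2 ^ 2) = t ^ 2 * q (θ, t) := by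
      intro θ t
      have h1 : (X (θ, t)).2 = t * r₁ (θ, t) := hXr θ t
      rw [hHK, hq, h1]
      ring
    have hqd : ∀ θ t : ℝ, HasDerivAt (fun s => q (θ, s)) (fderiv ℝ q (θ, t) (0, 1)) t := by
      intro θ t
      have h1 : HasFDerivAt q (fderiv ℝ q (θ, t)) (θ, t) :=
        ((hqs.differentiable (by simp)) (θ, t)).hasFDerivAt
      have h2 : HasDerivAt (fun s : ℝ => ((θ, s) : ℝ × ℝ)) (0, 1) t :=
        (hasDerivAt_const t θ).prodMk (hasDerivAt_id t)
      exact h1.comp_hasDerivAt t h2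
    have hgc : Continuous fun x : ℝ × ℝ => 2 * q x + x.2 * fderiv ℝ q x (0, 1) := by
      have h1 : Continuous fun x : ℝ × ℝ => fderiv ℝ q x (0, 1) :=
        (hqs.continuous_fderiv (by simp)).clm_apply continuous_const
      exact (continuous_const.mul hqs.continuous).add (continuous_snd.mul h1)
    have hg0 : ∀ θ : ℝ, 0 < 2 * q (θ, 0) + (0 : ℝ) * fderiv ℝ q (θ, 0) (0, 1) := by
      intro θ
      rw [hq, hW.axis]
      have h1 := hr10 θ
      have h2 := hK0 θ
      have h3 : ((θ, (0 : ℝ)).1, (θ, (0 : ℝ)).2 ^ 2) = (θ, (0 : ℝ)) := by simp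
      rw [h3, zero_mul, add_zero]
      positivity
    obtain ⟨r, hr, hgpos⟩ : ∃ r : ℝ, 0 < r ∧ ∀ θ ∈ Icc (0 : ℝ) (2 * Real.pi), ∀ t : ℝ, |t| ≤ r →
        0 < 2 * q (θ, t) + t * fderiv ℝ q (θ, t) (0, 1) := by
      have hopen : IsOpen {x : ℝ × ℝ | 0 < 2 * q x + x.2 * fderiv ℝ q x (0, 1)} :=
        isOpen_lt continuous_const hgc
      have hsub : (Icc (0 : ℝ) (2 * Real.pi)) ×ˢ ({0} : Set ℝ) ⊆
          {x : ℝ × ℝ | 0 < 2 * q x + x.2 * fderiv ℝ q x (0, 1)} := by
        rintro ⟨a, b⟩ ⟨-, hb⟩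
        have hb' : b = 0 := hb
        subst hb'
        exact hg0 a
      obtain ⟨u, v, -, hv, hu', hv', huv⟩ :=
        generalized_tube_lemma isCompact_Icc isCompact_singleton hopen hsub
      have h0v : (0 : ℝ) ∈ v := hv' (mem_singleton 0)
      obtain ⟨r, hr, hball⟩ := Metric.isOpen_iff.1 hv 0 h0v
      refine ⟨r / 2, by positivity, fun θ hθ t ht => ?_⟩
      have h1 : (θ, t) ∈ {x : ℝ × ℝ | 0 < 2 * q x + x.2 * fderiv ℝ q x (0, 1)} := by
        apply huv
        refine ⟨hu' hθ, hball ?_⟩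
        rw [Metric.mem_ball, Real.dist_eq, sub_zero]
        linarith
      exact h1
    refine ⟨r, hr, fun θ t _ => (hline θ t).2, fun θ => ?_⟩
    -- reduction to one period
    have hp : Function.Periodic (fun a => fun t : ℝ => Y (gam p a + t • e a)) (2 * Real.pi) := by
      intro a
      funext t
      simp only
      rw [(hline a t).2, (hline (a + 2 * Real.pi) t).2, hW.per a t]
      exact hper _ _
    obtain ⟨a, ha, hae⟩ := hp.exists_mem_Ico₀ Real.two_pi_pos θ
    have hae' : (fun t : ℝ => Y (gam p θ + t • e θ)) = fun t : ℝ => t ^ 2 * q (a, t) := by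
      have h1 : (fun t : ℝ => Y (gam p θ + t • e θ)) = fun t : ℝ => Y (gam p a + t • e a) := hae
      rw [h1]
      funext t
      rw [(hline a t).2, hf]
    rw [hae']
    have hder : ∀ t : ℝ, HasDerivAt (fun t : ℝ => t ^ 2 * q (a, t))
        (t * (2 * q (a, t) + t * fderiv ℝ q (a, t) (0, 1))) t := by
      intro t
      have h1 := ((hasDerivAt_id t).pow 2).mul (hqd a t)
      refine h1.congr_deriv ?_
      simp only [id]
      norm_num
      ring
    have hcont : Continuous (fun t : ℝ => t ^ 2 * q (a, t)) :=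
      continuous_iff_continuousAt.2 fun t => (hder t).continuousAt
    have haI : a ∈ Icc (0 : ℝ) (2 * Real.pi) := ⟨ha.1, ha.2.le⟩
    constructor
    · refine strictAntiOn_of_deriv_neg (convex_Icc _ _) hcont.continuousOn fun t ht => ?_
      rw [interior_Icc] at ht
      rw [(hder t).deriv]
      exact mul_neg_of_neg_of_pos ht.2 (hgpos a haI t (by
        rw [abs_of_neg ht.2]
        linarith [ht.1]))
    · refine strictMonoOn_of_deriv_pos (convex_Icc _ _) hcont.continuousOn fun t ht => ?_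
      rw [interior_Icc] at ht
      rw [(hder t).deriv]
      exact mul_pos ht.1 (hgpos a haI t (by
        rw [abs_of_pos ht.1]
        exact ht.2.le))

end Pool.Agent.H307.GX
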